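import Pool.Agent.H38.WT.Targets

set_option autoImplicit false

noncomputable section

namespace Pool.Agent.H13.WT
open Pool.Agent.H38.WT

theorem pf_CNT (h1 : T_ONE) (h2 : T_CUT) (h3 : T_REL) : T_CNT := by
  classical
  intro m ℓ j hm hj
  set J : Fin m := ⟨j, hj⟩ with hJ
  have key : ∀ V : SimpleGraph (Fin m), V.IsTree →
      cyc ℓ (cuts (rel (cyc ℓ (cuts V) J) V)) J = cyc ℓ (cuts V) J ∧
      cyc ℓ (cuts (rel (cyc ℓ (cuts V) J).symm V)) J = cyc ℓ (cuts V) J ∧
      (PJ ℓ (cuts V) (j + 1) ↔ PJ ℓ (cuts (rel (cyc ℓ (cuts V) J) V)) j) := by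
    intro V hV
    obtain ⟨a, b, c⟩ := h1 m ℓ (cuts V) J hm (h2 m V hV)
    rw [(h3 m V _).2.1, (h3 m V _).2.1]
    exact ⟨a, b, c⟩
  have back : ∀ (σ : Equiv.Perm (Fin m)) (V : SimpleGraph (Fin m)),
      rel σ (rel σ.symm V) = V := by
    intro σ V
    have := (h3 m V σ.symm).2.2
    simpa using this
  refine Finset.card_bij' (fun U _ => rel (cyc ℓ (cuts U) J) U)
    (fun V _ => rel (cyc ℓ (cuts V) J).symm V) ?_ ?_ ?_ ?_
  · intro U hU
    simp only [trees, Finset.mem_filter, Finset.mem_univ, true_and] at hU ⊢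
    exact ⟨(h3 m U _).1.2 hU.1, (key U hU.1).2.2.1 hU.2⟩
  · intro V hV
    simp only [trees, Finset.mem_filter, Finset.mem_univ, true_and] at hV ⊢
    have hT : (rel (cyc ℓ (cuts V) J).symm V).IsTree := (h3 m V _).1.2 hV.1
    refine ⟨hT, ?_⟩
    rw [(key _ hT).2.2, (key V hV.1).2.1, back]
    exact hV.2
  · intro U hU
    simp only [trees, Finset.mem_filter, Finset.mem_univ, true_and] at hU
    show _ = _
    rw [(key U hU.1).1]
    exact (h3 m U _).2.2
  · intro V hV
    simp only [trees, Finset.mem_filter, Finset.mem_univ, true_and] at hV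
    show _ = _
    rw [(key V hV.1).2.1]
    exact back _ V

end Pool.Agent.H13.WT
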